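import Pool.Agent.helper19.MX.SpecA

/-! Row mx:FAB (MP_a875de_ag): from `a`-coordinates to `b`-coordinates. -/

namespace MX

open Pool.Agent.helper53.AU AN
open scoped Classical Topology
open Finset (range powerset Icc)

theorem FAB (hPS1 : PS1_stmt) (hPSS : PSS_stmt) : FAB_stmt := by
  intro K _ _ _ h a x
  obtain ⟨-, -, -, hp, -, -⟩ := hPS1 K
  unfold fa fb
  rw [hPSS K ℕ, hPSS K ℕ]
  refine Finset.prod_congr rfl fun i hi => ?_
  have hi' : i ≤ h := Nat.lt_succ_iff.1 (Finset.mem_range.1 hi)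
  rw [← hp (a i * x ^ (2 ^ i + 1)) (h - i)]
  congr 1
  unfold bb
  have e : (2 : ℕ) ^ h = 2 ^ i * 2 ^ (h - i) := by rw [← pow_add, Nat.add_sub_cancel' hi']
  rw [mul_pow, ← pow_mul, add_mul, one_mul, ← e, pow_add, mul_assoc]

end MX
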