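import Pool.Agent.helper19.MX.SpecD

/-! Row mx:RPT (MP_a875de_ag): the number of rational points of an elementary abelian cover. -/

namespace MX

open Pool.Agent.helper53.AU AN
open scoped Classical Topology
open Finset (range powerset Icc)

/-- a constant with positive order is zero -/
lemma RPT_const {k F : Type} [Field k] [Field F] [Algebra k F] (P : Place k F) {a b : k} {z : F}
    (h1 : P.Ge 1 (z - algebraMap k F a)) (h2 : P.Ge 1 (z - algebraMap k F b)) : a = b := by
  have h : P.Ge 1 (algebraMap k F (a - b)) := by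
    have h3 := h2.sub h1
    have e : z - algebraMap k F b - (z - algebraMap k F a) = algebraMap k F (a - b) := by
      rw [map_sub]; ring
    rwa [e] at h3
  by_contra hab
  have hne : a - b ≠ 0 := sub_ne_zero.2 hab
  have h4 := h.le ((map_ne_zero_iff _ (algebraMap k F).injective).2 hne)
  rw [P.ord_const _ hne] at h4
  omega

theorem RPT (hAFE : AFE_stmt) (hAFU : AFU_stmt) (hAFV : AFV_stmt) (hTOW : TOW_stmt) : RPT_stmt := by
  intro K F _ _ _ _ _ x r y f hAS
  have hCF : CharP F 2 := charP_of_injective_algebraMap (algebraMap K F).injective 2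
  have hperf : ∀ c : K, ∃ c' : K, c' ^ 2 = c := by
    intro c
    obtain ⟨c', hc'⟩ := FiniteField.isSquare_of_char_two (ringChar.eq K 2) c
    exact ⟨c', by rw [hc', pow_two]⟩
  obtain ⟨-, P₀, hP₀d, hP₀x, hP₀u, -⟩ := hTOW K F hperf x r y f hAS
  have hx0 : x ≠ 0 := fun h => hAS.tr (h ▸ isAlgebraic_zero)
  -- the coordinates of a place over an affine point
  let S : Type := {p : K × (Fin r → K) // ∀ j : Fin r, p.2 j ^ 2 + p.2 j = (f j).eval p.1}
  have hV : ∀ P : {P : Place K F // DegOne P}, P.1.Ge 0 x → ∃ s : S,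
      P.1.Ge 1 (x - algebraMap K F s.1.1) ∧ ∀ j : Fin r, P.1.Ge 1 (y j - algebraMap K F (s.1.2 j)) := by
    intro P hP
    obtain ⟨x₀, y₀, h1, h2, h3⟩ := hAFV K F x r y f hAS P.1 P.2 hP
    exact ⟨⟨(x₀, fun j => y₀ j), fun j => h3 j j.2⟩, h1, fun j => h2 j j.2⟩
  let Φ : {P : Place K F // DegOne P} → Option S := fun P =>
    if h : P.1.Ge 0 x then some (hV P h).choose else none
  have hΦs : ∀ (P : {P : Place K F // DegOne P}) (s : S), Φ P = some s →
      P.1.Ge 1 (x - algebraMap K F s.1.1) ∧ ∀ j : Fin r, P.1.Ge 1 (y j - algebraMap K F (s.1.2 j)) := by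
    intro P s hs
    by_cases h : P.1.Ge 0 x
    · have e : Φ P = some (hV P h).choose := dif_pos h
      rw [e, Option.some.injEq] at hs
      rw [← hs]
      exact (hV P h).choose_spec
    · have e : Φ P = none := dif_neg h
      rw [e] at hs
      exact absurd hs (by simp)
  have hΦn : ∀ P : {P : Place K F // DegOne P}, Φ P = none → P.1 = P₀ := by
    intro P hs
    by_cases h : P.1.Ge 0 x
    · have e : Φ P = some (hV P h).choose := dif_pos h
      rw [e] at hs
      exact absurd hs (by simp)
    · apply hP₀u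
      by_contra hlt
      exact h (Or.inr (not_lt.1 hlt))
  have hbij : Function.Bijective Φ := by
    constructor
    · intro P P' h
      cases hP : Φ P with
      | none =>
        rw [hP] at h
        exact Subtype.ext ((hΦn P hP).trans (hΦn P' h.symm).symm)
      | some s =>
        rw [hP] at h
        obtain ⟨a1, a2⟩ := hΦs P s hP
        obtain ⟨b1, b2⟩ := hΦs P' s h.symm
        let y₀ : ℕ → K := fun j => if hj : j < r then s.1.2 ⟨j, hj⟩ else 0
        have hy₀ : ∀ j (hj : j < r), y₀ j = s.1.2 ⟨j, hj⟩ := fun j hj => dif_pos hj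
        refine Subtype.ext (hAFU K F x r y f hAS s.1.1 y₀ P.1 P'.1 a1 ?_ b1 ?_)
        · intro j hj
          rw [hy₀ j hj]
          exact a2 ⟨j, hj⟩
        · intro j hj
          rw [hy₀ j hj]
          exact b2 ⟨j, hj⟩
    · intro o
      cases o with
      | none =>
        refine ⟨⟨P₀, hP₀d⟩, dif_neg ?_⟩
        intro h
        have h1 := h.le hx0
        rw [hP₀x] at h1
        have : (0 : ℤ) < 2 ^ r := by positivity
        omega
      | some s =>
        let y₀ : ℕ → K := fun j => if hj : j < r then s.1.2 ⟨j, hj⟩ else 0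
        have hy₀ : ∀ j (hj : j < r), y₀ j = s.1.2 ⟨j, hj⟩ := fun j hj => dif_pos hj
        obtain ⟨P, hPd, hP1, hP2⟩ := hAFE K F hperf x r y f hAS s.1.1 y₀ (by
          intro j hj
          rw [hy₀ j hj]
          exact s.2 ⟨j, hj⟩)
        have hx : P.Ge 0 x := by
          have h := (hP1.mono (show (0 : ℤ) ≤ 1 by norm_num)).add (P.ge_const s.1.1)
          rwa [sub_add_cancel] at h
        refine ⟨⟨P, hPd⟩, ?_⟩
        have e : Φ ⟨P, hPd⟩ = some (hV ⟨P, hPd⟩ hx).choose := dif_pos hx
        obtain ⟨c1, c2⟩ := (hV ⟨P, hPd⟩ hx).choose_spec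
        rw [e, Option.some.injEq]
        apply Subtype.ext
        apply Prod.ext
        · exact RPT_const P c1 hP1
        · funext j
          have h := hP2 j j.2
          rw [hy₀ j j.2] at h
          exact RPT_const P (c2 j) h
  unfold numPts
  rw [Nat.card_eq_of_bijective Φ hbij, Finite.card_option, add_comm]

end MX
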