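import Pool.Agent.helper19.MX.SpecC

/-! Row mx:SLK (MP_a875de_ag): kernel of semilinear maps. -/

namespace MX

open Pool.Agent.helper53.AU AN
open scoped Classical Topology
open Finset (range powerset Icc)

theorem SLK : SLK_stmt := by
  intro k V W _ _ _ _ _ _ _ σ Θ hΘ hlt
  by_contra hcon
  have hinj : ∀ v : V, Θ v = 0 → v = 0 := fun v hv => by
    by_contra hv0
    exact hcon ⟨v, hv0, hv⟩
  have b := Module.finBasis k V
  have hli : LinearIndependent k (fun i => Θ (b i)) := by
    rw [Fintype.linearIndependent_iff]
    intro c hc i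
    have h1 : Θ (∑ i, σ.symm (c i) • b i) = 0 := by
      rw [map_sum, ← hc]
      refine Finset.sum_congr rfl fun j _ => ?_
      rw [hΘ, RingEquiv.apply_symm_apply]
    have h2 := Fintype.linearIndependent_iff.1 b.linearIndependent (fun i => σ.symm (c i))
      (hinj _ h1) i
    exact (map_eq_zero_iff σ.symm σ.symm.injective).1 h2
  have h3 := hli.fintype_card_le_finrank
  rw [Fintype.card_fin] at h3
  exact absurd hlt (not_lt.2 h3)

end MX
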